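import Mathlib

set_option autoImplicit false

namespace Pool.Agent.Results.MP_c1c042_nt.FiniteNotOnto

def T (d : ℕ) (mu r : ℕ → ℤ) (x : ℤ) : ℤ :=
  (mu (x % d).toNat * x - r (x % d).toNat) / d

def q (d : ℕ) (mu r : ℕ → ℤ) (m : ℕ) (i j : Fin m) : ℚ :=
  (((Finset.range (m * d)).filter fun x : ℕ =>
      (x : ℤ) ≡ (i : ℕ) [ZMOD m] ∧ T d mu r x ≡ (j : ℕ) [ZMOD m]).card / (m * d : ℚ)) / (1 / m)

def IsRecClass (d : ℕ) (mu r : ℕ → ℤ) (m : ℕ) (C : Set (Fin m)) : Prop :=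
  C.Nonempty ∧ (∀ i ∈ C, ∀ j, 0 < q d mu r m i j → j ∈ C) ∧
    ∀ i ∈ C, ∀ j ∈ C, Relation.ReflTransGen (fun a b => 0 < q d mu r m a b) i j

def E (d : ℕ) (mu r : ℕ → ℤ) : Set (Set ℤ) :=
  {S | ∃ m : ℕ, 2 ≤ m ∧ ∃ C : Set (Fin m), IsRecClass d mu r m C ∧
    S = {x | ∃ i ∈ C, x ≡ (i : ℕ) [ZMOD m]}}

theorem result : ∃ (d : ℕ) (mu r : ℕ → ℤ), 2 ≤ d ∧ (∀ i < d, mu i ≠ 0) ∧
    (∀ i < d, r i ≡ i * mu i [ZMOD d]) ∧ Int.gcd (∏ i ∈ Finset.range d, mu i) d = 1 ∧
    ¬ Function.Surjective (T d mu r) ∧ (E d mu r).Nonempty ∧ (E d mu r).Finite := by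
  set mu : ℕ → ℤ := fun _ => 2 with hmu
  set r : ℕ → ℤ := fun i => 2 * i - 5 with hr
  have hT : ∀ x : ℤ, T 5 mu r x = 2 * (x / 5) + 1 := by
    intro x
    simp only [T, hmu, hr]
    omega
  have hq : ∀ (m : ℕ) (i j : Fin m), 0 < q 5 mu r m i j ↔
      ∃ x : ℤ, x ≡ (i : ℕ) [ZMOD m] ∧ 2 * (x / 5) + 1 ≡ (j : ℕ) [ZMOD m] := by
    intro m i j
    have hm : 0 < m := i.pos
    have hm' : (0 : ℚ) < m := by exact_mod_cast hm
    rw [q, div_pos_iff_of_pos_right (by positivity), div_pos_iff_of_pos_right (by positivity),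
      Nat.cast_pos, Finset.card_pos]
    constructor
    · rintro ⟨x, hx⟩
      rw [Finset.mem_filter, hT] at hx
      exact ⟨x, hx.2⟩
    · rintro ⟨x, h1, h2⟩
      have hp : (0 : ℤ) < m * 5 := by positivity
      have e1 := Int.emod_nonneg x hp.ne'
      have e2 := Int.emod_lt_of_pos x hp
      have e3 := Int.emod_add_mul_ediv x (m * 5)
      refine ⟨(x % (m * 5)).toNat, ?_⟩
      rw [Finset.mem_filter, Finset.mem_range, hT, Int.toNat_of_nonneg e1]
      refine ⟨by omega, Int.ModEq.trans ?_ h1, Int.ModEq.trans ?_ h2⟩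
      · exact Int.modEq_iff_dvd.2 ⟨5 * (x / (m * 5)), by linear_combination -e3⟩
      · refine Int.modEq_iff_dvd.2 ⟨2 * (x / (m * 5)), ?_⟩
        have e4 : x / 5 = x % (m * 5) / 5 + m * (x / (m * 5)) := by
          rw [← Int.add_mul_ediv_left _ _ (by norm_num : (5 : ℤ) ≠ 0)]
          congr 1
          linear_combination -e3
        rw [e4]
        ring
  have cls : ∀ m : ℕ, 0 < m → ∀ x : ℤ, ∃ i : Fin m, x ≡ (i : ℕ) [ZMOD m] := by
    intro m hm x
    have hp : (0 : ℤ) < m := by exact_mod_cast hm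
    have e1 := Int.emod_nonneg x hp.ne'
    have e2 := Int.emod_lt_of_pos x hp
    refine ⟨⟨(x % m).toNat, by omega⟩, ?_⟩
    simp only [Int.toNat_of_nonneg e1]
    exact (Int.mod_modEq x m).symm
  have uniq : ∀ (m : ℕ) (i j : Fin m), ((i : ℕ) : ℤ) ≡ (j : ℕ) [ZMOD m] → i = j := by
    intro m i j h
    exact Fin.ext (Nat.ModEq.eq_of_lt_of_lt (Int.natCast_modEq_iff.1 h) i.isLt j.isLt)
  have reach : ∀ (m : ℕ) (k : ℤ) (j : Fin m), 2 * k + 1 ≡ (j : ℕ) [ZMOD m] → ∀ i : Fin m,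
      Relation.ReflTransGen (fun a b => 0 < q 5 mu r m a b) i j := by
    intro m k j hj
    have hm : 0 < m := j.pos
    have key : ∀ L : ℕ, ∃ s : ℤ, ∀ x : ℤ, s ≤ x → x ≤ s + L + 1 → ∀ i : Fin m,
        x ≡ (i : ℕ) [ZMOD m] → Relation.ReflTransGen (fun a b => 0 < q 5 mu r m a b) i j := by
      intro L
      induction L with
      | zero =>
        refine ⟨5 * k, fun x h1 h2 i hi => Relation.ReflTransGen.single ((hq m i j).2 ⟨x, hi, ?_⟩)⟩
        rw [show x / 5 = k by omega]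
        exact hj
      | succ L ih =>
        obtain ⟨s, hs⟩ := ih
        refine ⟨5 * (s / 2), fun x h1 h2 i hi => ?_⟩
        obtain ⟨i', hi'⟩ := cls m hm (2 * (x / 5) + 1)
        exact Relation.ReflTransGen.head ((hq m i i').2 ⟨x, hi, hi'⟩)
          (hs _ (by omega) (by omega) i' hi')
    intro i
    obtain ⟨s, hs⟩ := key m
    have hp : (0 : ℤ) < m := by exact_mod_cast hm
    have e1 := Int.emod_nonneg ((i : ℕ) - s) hp.ne'
    have e2 := Int.emod_lt_of_pos ((i : ℕ) - s) hp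
    refine hs (s + ((i : ℕ) - s) % m) (by omega) (by omega) i ?_
    have := (Int.mod_modEq ((i : ℕ) - s) m).add_left s
    simpa using this
  refine ⟨5, mu, r, by norm_num, fun _ _ => two_ne_zero, fun i _ => ?_, by decide, fun h => ?_,
    ?_, ?_⟩
  · exact Int.modEq_iff_dvd.2 ⟨1, by simp only [hmu, hr]; push_cast; ring⟩
  · obtain ⟨x, hx⟩ := h 0
    rw [hT] at hx
    omega
  · refine ⟨_, 3, by norm_num, Set.univ, ⟨Set.univ_nonempty, fun _ _ _ _ => trivial,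
      fun i _ j _ => reach 3 (2 * (j : ℕ) + 1) j ?_ i⟩, rfl⟩
    exact (Int.modEq_iff_dvd.2 ⟨-((j : ℕ) + 1), by push_cast; ring⟩)
  · refine (Set.toFinite ({Set.univ, {x | x % 2 = 1}} : Set (Set ℤ))).subset ?_
    rintro S ⟨m, hm, C, ⟨⟨i0, hi0⟩, hc, hr'⟩, rfl⟩
    have hodd : ∀ (k : ℤ) (j : Fin m), 2 * k + 1 ≡ (j : ℕ) [ZMOD m] → j ∈ C := by
      intro k j hj
      have := reach m k j hj i0
      clear hj
      induction this with
      | refl => exact hi0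
      | tail _ h2 ih => exact hc _ ih _ h2
    rcases Nat.even_or_odd' m with ⟨t, ht | ht⟩
    · right
      ext x
      simp only [Set.mem_ofPred_eq]
      have par : ∀ a b : ℤ, a ≡ b [ZMOD m] → a % 2 = b % 2 := fun a b h =>
        h.of_dvd ⟨t, by rw [ht]; push_cast; ring⟩
      constructor
      · rintro ⟨i, hi, hx⟩
        obtain ⟨j, hj⟩ := cls m (by omega) 1
        have hjC := hodd 0 j (by simpa using hj)
        rw [par _ _ hx]
        rcases (hr' j hjC i hi).cases_tail with h | ⟨c, -, h⟩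
        · rw [h, ← par _ _ hj]; rfl
        · obtain ⟨y, -, hy⟩ := (hq m c i).1 h
          rw [← par _ _ hy]
          omega
      · intro hx
        obtain ⟨i, hi⟩ := cls m (by omega) x
        exact ⟨i, hodd (x / 2) i (by rw [show 2 * (x / 2) + 1 = x by omega]; exact hi), hi⟩
    · left
      ext x
      simp only [Set.mem_ofPred_eq, Set.mem_univ, iff_true]
      obtain ⟨i, hi⟩ := cls m (by omega) x
      refine ⟨i, hodd ((x - 1) * (t + 1)) i (Int.ModEq.trans ?_ hi), hi⟩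
      exact Int.modEq_iff_dvd.2 ⟨1 - x, by rw [ht]; push_cast; ring⟩

end Pool.Agent.Results.MP_c1c042_nt.FiniteNotOnto
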